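import Mathlib

set_option autoImplicit false

namespace Pool.Agent.Results.MP_387adc_co.PolynomialsNotUniversal

open Polynomial

/-- The polynomials all of whose coefficients lie in `{0, 1} ∪ ℚ_{≥ 2}`. -/
def Pset : Set (Polynomial ℚ) := {p | ∀ i, p.coeff i = 0 ∨ p.coeff i = 1 ∨ 2 ≤ p.coeff i}

/-- The pointwise order on the interval `[s, t]`. -/
def leP (s t : ℝ) (p q : Polynomial ℚ) : Prop :=
  ∀ x ∈ Set.Icc s t, aeval x p ≤ aeval x q

/-- `(𝒫, ≤)` is universal for countable preorders. -/
def Universal (s t : ℝ) : Prop :=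
  ∀ (A : Type) [Countable A] [Preorder A], ∃ f : A → Polynomial ℚ,
    (∀ a, f a ∈ Pset) ∧ ∀ a a' : A, a ≤ a' ↔ leP s t (f a) (f a')

theorem coeff_nonneg {p : Polynomial ℚ} (hp : p ∈ Pset) (i : ℕ) : 0 ≤ p.coeff i := by
  rcases hp i with h | h | h
  · rw [h]
  · rw [h]; norm_num
  · linarith

theorem pow_natDegree_le {p : Polynomial ℚ} (hp : p ∈ Pset) (h0 : p ≠ 0) {s : ℝ} (hs : 1 < s) :
    s ^ p.natDegree ≤ aeval s p := by
  rw [aeval_eq_sum_range]
  have h1 : s ^ p.natDegree ≤ p.coeff p.natDegree • s ^ p.natDegree := by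
    have hlead : (1 : ℚ) ≤ p.coeff p.natDegree := by
      have hne : p.coeff p.natDegree ≠ 0 := by
        rw [coeff_natDegree]; exact leadingCoeff_ne_zero.2 h0
      rcases hp p.natDegree with h | h | h
      · exact absurd h hne
      · rw [h]
      · linarith
    have hpos : 0 ≤ s ^ p.natDegree := by positivity
    rw [Algebra.smul_def]
    have h2 : (1 : ℝ) ≤ (algebraMap ℚ ℝ) (p.coeff p.natDegree) := by
      simp only [eq_ratCast]
      exact_mod_cast hlead
    nlinarith
  refine le_trans h1 ?_
  refine Finset.single_le_sum (f := fun i => p.coeff i • s ^ i) ?_ ?_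
  · intro i _
    rw [Algebra.smul_def]
    apply mul_nonneg
    · simp only [eq_ratCast]
      exact_mod_cast coeff_nonneg hp i
    · positivity
  · simp

/-- The polynomials of `𝒫` below a fixed one have bounded degree. -/
theorem degree_bound {s t : ℝ} (hs : 1 < s) (hst : s < t) (M : Polynomial ℚ) :
    ∃ N : ℕ, ∀ p ∈ Pset, leP s t p M → p.natDegree ≤ N := by
  obtain ⟨N, hN⟩ := pow_unbounded_of_one_lt (aeval s M) hs
  refine ⟨N, ?_⟩
  intro p hp hle
  by_cases h0 : p = 0
  · subst h0; simp
  have h1 := pow_natDegree_le hp h0 hs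
  have h2 := hle s ⟨le_rfl, hst.le⟩
  by_contra hcon
  push Not at hcon
  have h3 : s ^ N ≤ s ^ p.natDegree := pow_le_pow_right₀ hs.le hcon.le
  linarith

theorem result (s t : ℝ) (hs : 1 < s) (hst : s < t) :
    (¬ ∃ f : WithTop (Finset ℕ) → Polynomial ℚ,
      (∀ a, f a ∈ Pset) ∧ ∀ a a' : WithTop (Finset ℕ), a ≤ a' ↔ leP s t (f a) (f a')) ∧
    ¬ Universal s t := by
  have main : ¬ ∃ f : WithTop (Finset ℕ) → Polynomial ℚ,
      (∀ a, f a ∈ Pset) ∧ ∀ a a' : WithTop (Finset ℕ), a ≤ a' ↔ leP s t (f a) (f a') := by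
    rintro ⟨f, hfP, hf⟩
    obtain ⟨N, hN⟩ := degree_bound hs hst (f ⊤)
    have hdeg : ∀ S : Finset ℕ, (f (S : WithTop (Finset ℕ))).natDegree ≤ N := by
      intro S
      exact hN _ (hfP _) ((hf _ _).1 le_top)
    -- points at which `{j}` is not below the complement of `j`
    have hy : ∀ j : Fin (N + 2), ∃ y : ℝ, ∀ S S' : Finset ℕ, S ⊆ Finset.range (N + 2) →
        (j : ℕ) ∉ S → (j : ℕ) ∈ S' →
        aeval y (f (S : WithTop (Finset ℕ))) < aeval y (f (S' : WithTop (Finset ℕ))) := by
      intro j
      have hnot : ¬ ((({(j : ℕ)} : Finset ℕ) : WithTop (Finset ℕ)) ≤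
          (((Finset.range (N + 2)).erase (j : ℕ) : Finset ℕ) : WithTop (Finset ℕ))) := by
        rw [WithTop.coe_le_coe]
        intro h
        have := h (Finset.mem_singleton_self _)
        simp at this
      rw [hf] at hnot
      unfold leP at hnot
      push Not at hnot
      obtain ⟨y, hyI, hylt⟩ := hnot
      refine ⟨y, ?_⟩
      intro S S' hS hjS hjS'
      have h1 : (S : WithTop (Finset ℕ)) ≤
          (((Finset.range (N + 2)).erase (j : ℕ) : Finset ℕ) : WithTop (Finset ℕ)) := by
        rw [WithTop.coe_le_coe]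
        intro x hx
        rw [Finset.mem_erase]
        refine ⟨?_, hS hx⟩
        rintro rfl
        exact hjS hx
      have h2 : ((({(j : ℕ)} : Finset ℕ) : WithTop (Finset ℕ)) ≤ (S' : WithTop (Finset ℕ))) := by
        rw [WithTop.coe_le_coe]
        intro x hx
        rw [Finset.mem_singleton] at hx
        subst hx
        exact hjS'
      exact lt_of_le_of_lt ((hf _ _).1 h1 y hyI) (lt_of_lt_of_le hylt ((hf _ _).1 h2 y hyI))
    choose y hy using hy
    -- a linear relation
    let L : (Fin (N + 2) → ℝ) →ₗ[ℝ] (Fin (N + 1) → ℝ) :=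
      { toFun := fun c k => ∑ j, c j * y j ^ (k : ℕ)
        map_add' := by
          intro c c'
          funext k
          simp only [Pi.add_apply, add_mul, Finset.sum_add_distrib]
        map_smul' := by
          intro r c
          funext k
          simp only [Pi.smul_apply, smul_eq_mul, RingHom.id_apply, Finset.mul_sum, mul_assoc] }
    have hker : LinearMap.ker L ≠ ⊥ := by
      apply LinearMap.ker_ne_bot_of_finrank_lt
      simp
    obtain ⟨c, hc, hc0⟩ := Submodule.exists_mem_ne_zero_of_ne_bot hker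
    have hrel : ∀ p : Polynomial ℚ, p.natDegree ≤ N → ∑ j, c j * aeval (y j) p = 0 := by
      intro p hp
      have h1 : ∀ j, aeval (y j) p = ∑ k ∈ Finset.range (N + 1), (p.coeff k : ℝ) * y j ^ k := by
        intro j
        rw [aeval_eq_sum_range' (n := N + 1) (by omega)]
        apply Finset.sum_congr rfl
        intro k _
        rw [Algebra.smul_def]
        simp
      simp only [h1, Finset.mul_sum]
      rw [Finset.sum_comm]
      apply Finset.sum_eq_zero
      intro k hk
      rw [Finset.mem_range] at hk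
      have h2 := congrFun (LinearMap.mem_ker.1 hc) ⟨k, hk⟩
      have h3 : ∑ j, c j * y j ^ k = 0 := h2
      have h4 : ∑ j, c j * ((p.coeff k : ℝ) * y j ^ k) = (p.coeff k : ℝ) * ∑ j, c j * y j ^ k := by
        rw [Finset.mul_sum]
        apply Finset.sum_congr rfl
        intro j _
        ring
      rw [h4, h3, mul_zero]
    classical
    let S : Finset ℕ := ((Finset.univ : Finset (Fin (N + 2))).filter (fun j => 0 < c j)).image
      (fun j : Fin (N + 2) => (j : ℕ))
    let S' : Finset ℕ := ((Finset.univ : Finset (Fin (N + 2))).filter (fun j => c j < 0)).image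
      (fun j : Fin (N + 2) => (j : ℕ))
    have hmS : ∀ j : Fin (N + 2), (j : ℕ) ∈ S ↔ 0 < c j := by
      intro j
      simp only [S, Finset.mem_image, Finset.mem_filter, Finset.mem_univ, true_and]
      constructor
      · rintro ⟨i, hi, hij⟩
        have : i = j := Fin.ext hij
        exact this ▸ hi
      · intro h
        exact ⟨j, h, rfl⟩
    have hmS' : ∀ j : Fin (N + 2), (j : ℕ) ∈ S' ↔ c j < 0 := by
      intro j
      simp only [S', Finset.mem_image, Finset.mem_filter, Finset.mem_univ, true_and]
      constructor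
      · rintro ⟨i, hi, hij⟩
        have : i = j := Fin.ext hij
        exact this ▸ hi
      · intro h
        exact ⟨j, h, rfl⟩
    have hSr : S ⊆ Finset.range (N + 2) := by
      intro x hx
      simp only [S, Finset.mem_image] at hx
      obtain ⟨j, _, rfl⟩ := hx
      exact Finset.mem_range.2 j.2
    have hSr' : S' ⊆ Finset.range (N + 2) := by
      intro x hx
      simp only [S', Finset.mem_image] at hx
      obtain ⟨j, _, rfl⟩ := hx
      exact Finset.mem_range.2 j.2
    have hsum : ∑ j, (c j * aeval (y j) (f (S : WithTop (Finset ℕ)))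
        - c j * aeval (y j) (f (S' : WithTop (Finset ℕ)))) = 0 := by
      rw [Finset.sum_sub_distrib, hrel _ (hdeg S), hrel _ (hdeg S'), sub_zero]
    have hnn : ∀ j ∈ (Finset.univ : Finset (Fin (N + 2))),
        0 ≤ c j * aeval (y j) (f (S : WithTop (Finset ℕ)))
          - c j * aeval (y j) (f (S' : WithTop (Finset ℕ))) := by
      intro j _
      rcases lt_trichotomy (c j) 0 with h | h | h
      · have h1 := hy j S S' hSr (by rw [hmS]; exact not_lt.2 h.le) ((hmS' j).2 h)
        nlinarith
      · rw [h]; simp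
      · have h1 := hy j S' S hSr' (by rw [hmS']; exact not_lt.2 h.le) ((hmS j).2 h)
        nlinarith
    have hzero := (Finset.sum_eq_zero_iff_of_nonneg hnn).1 hsum
    apply hc0
    funext j
    have hj := hzero j (Finset.mem_univ j)
    by_contra hne
    rcases lt_or_gt_of_ne hne with h | h
    · have h' : c j < 0 := h
      have h1 := hy j S S' hSr (by rw [hmS]; exact not_lt.2 h'.le) ((hmS' j).2 h')
      nlinarith
    · have h' : 0 < c j := h
      have h1 := hy j S' S hSr' (by rw [hmS']; exact not_lt.2 h'.le) ((hmS j).2 h')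
      nlinarith
  refine ⟨main, ?_⟩
  intro hU
  apply main
  have : Countable (WithTop (Finset ℕ)) := inferInstanceAs (Countable (Option (Finset ℕ)))
  exact hU (WithTop (Finset ℕ))

end Pool.Agent.Results.MP_387adc_co.PolynomialsNotUniversal
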